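import Pool.Agent.H69.LQ.Lib
import Pool.Agent.H69.LNN.Targets
import Pool.Agent.H33.LQ.M1

set_option autoImplicit false

open MeasureTheory Metric Set
open scoped ENNReal

namespace Pool.Agent.H14.LNN

open Pool.Agent.H85.LK (E adm lam Ann)
open Pool.Agent.H69.LQ Pool.Agent.H69.LNN

/-- elementary bound for the exponential function -/
theorem one_sub_exp_neg {x : ℝ} (hx : 0 ≤ x) : x - x ^ 2 / 2 ≤ 1 - Real.exp (-x) := by
  have h1 := Real.quadratic_le_exp_of_nonneg hx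
  have h2 : Real.exp (-x) * Real.exp x = 1 := by rw [← Real.exp_add]; simp
  have h3 : 0 < Real.exp (-x) := Real.exp_pos _
  have h4 : Real.exp (-x) * (1 + x + x ^ 2 / 2) ≤ 1 :=
    le_trans (mul_le_mul_of_nonneg_left h1 h3.le) h2.le
  have h5 : 0 < 1 + x + x ^ 2 / 2 := by positivity
  have h6 : Real.exp (-x) ≤ 1 / (1 + x + x ^ 2 / 2) := by
    rw [le_div_iff₀ h5]
    exact h4
  have h7 : 1 / (1 + x + x ^ 2 / 2) ≤ 1 - x + x ^ 2 / 2 := by
    rw [div_le_iff₀ h5]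
    nlinarith [sq_nonneg (x ^ 2)]
  linarith

/-- the lower bound on the interval from `r₁` to `a` -/
theorem outer {N : ℕ} {L : ℝ} (hN : 3 ≤ N) (hPH : T_PH) {w w' : ℝ → ℝ} (hw : C1 w w')
    {r₁ a k τ : ℝ} (hr : 0 < r₁) (hra : r₁ ≤ a) (hk : 0 < k)
    (hp : ∀ r, r₁ ≤ r → r ≤ a → k * r ≤ ph N L 1 r) (hwa : w a = 0)
    (hw1 : w r₁ = -τ * ph N L 1 r₁) :
    N * k ^ 2 * r₁ ^ N * τ ^ 2 - r₁ ^ (N - 1) * (dph N L 1 r₁ * ph N L 1 r₁) * τ ^ 2 ≤
      ∫ r in r₁..a, r ^ (N - 1) * (w' r ^ 2 + (((N : ℝ) - 1) / r ^ 2 - L) * w r ^ 2) := by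
  obtain ⟨hP1, hP2, hP3⟩ := hPH N L (by omega)
  obtain ⟨P, hP⟩ : ∃ P, P = ph N L 1 := ⟨_, rfl⟩
  obtain ⟨P', hP'⟩ : ∃ P', P' = dph N L 1 := ⟨_, rfl⟩
  rw [← hP] at hp hw1
  rw [← hP, ← hP']
  have hPd0 : ∀ r, HasDerivAt P (P' r) r := by
    intro r; rw [hP, hP']; exact hP1 1 r
  have hPd : ∀ r : ℝ, 0 < r → HasDerivAt (fun r => r ^ (N - 1) * P' r)
      (r ^ (N - 1) * ((((N : ℝ) - 1) / r ^ 2 - L) * P r)) r := by
    intro r hr
    have h1 := hP3 1 r hr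
    rw [hP, hP']
    have h2 : ((1 : ℕ) : ℝ) * (((1 : ℕ) : ℝ) + N - 2) = (N : ℝ) - 1 := by
      push_cast
      ring
    rw [h2] at h1
    exact h1
  have hNR : (0 : ℝ) < N := by exact_mod_cast (by omega : 0 < N)
  have hPpos : ∀ r, r₁ ≤ r → r ≤ a → 0 < P r := fun r h1 h2 =>
    lt_of_lt_of_le (mul_pos hk (lt_of_lt_of_le hr h1)) (hp r h1 h2)
  obtain ⟨c, hc⟩ : ∃ c : ℝ, c = τ * N * k ^ 2 * r₁ ^ N := ⟨_, rfl⟩
  -- the comparison function
  have hg : ∀ r, r₁ ≤ r → r ≤ a → HasDerivAt (fun r => r ^ (N - 1) * P' r / P r * w r ^ 2 +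
      2 * c * (w r / P r) - c ^ 2 / (N * k ^ 2) * (-(r ^ N)⁻¹))
      (r ^ (N - 1) * (w' r ^ 2 + (((N : ℝ) - 1) / r ^ 2 - L) * w r ^ 2) -
        (r ^ (N - 1) * P r ^ 2 * ((w' r * P r - w r * P' r) / P r ^ 2) ^ 2 -
        2 * c * ((w' r * P r - w r * P' r) / P r ^ 2) +
        c ^ 2 / (N * k ^ 2) * (N * r ^ (N - 1) / (r ^ N) ^ 2))) r := by
    intro r h1 h2
    have hr0 : 0 < r := lt_of_lt_of_le hr h1
    have hne : P r ≠ 0 := (hPpos r h1 h2).ne'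
    have d1 := ((hPd r hr0).div (hPd0 r) hne).mul ((hw.1 r).pow 2)
    have d2 := ((hw.1 r).div (hPd0 r) hne).const_mul (2 * c)
    have d3 := ((hasDerivAt_pow N r).inv (pow_ne_zero N hr0.ne')).neg.const_mul
      (c ^ 2 / (N * k ^ 2))
    refine ((d1.add d2).sub d3).congr_deriv ?_
    have e1 : ((fun r => r ^ (N - 1) * P' r) / P) r = r ^ (N - 1) * P' r / P r := rfl
    rw [e1]
    simp only [Pi.pow_apply, Nat.cast_ofNat, pow_one, Nat.add_one_sub_one]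
    generalize P' r = D
    generalize hPv : P r = p
    rw [hPv] at hne
    generalize ((N : ℝ) - 1) / r ^ 2 - L = q
    generalize c ^ 2 / (N * k ^ 2) = C
    generalize r ^ (N - 1) = R
    generalize r ^ N = S
    field_simp
    ring
  have hwc : Continuous w := continuous_iff_continuousAt.2 fun x => (hw.1 x).continuousAt
  have key := intervalIntegral.sub_le_integral_of_hasDeriv_right_of_le hra
    (g := fun r => r ^ (N - 1) * P' r / P r * w r ^ 2 +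
      2 * c * (w r / P r) - c ^ 2 / (N * k ^ 2) * (-(r ^ N)⁻¹))
    (φ := fun r => r ^ (N - 1) * (w' r ^ 2 + (((N : ℝ) - 1) / r ^ 2 - L) * w r ^ 2))
    (fun r h => (hg r h.1 h.2).continuousAt.continuousWithinAt)
    (fun r h => (hg r h.1.le h.2.le).hasDerivWithinAt) ?_ ?_
  · refine le_trans ?_ key
    simp only [hwa, hw1]
    have hne : P r₁ ≠ 0 := (hPpos r₁ le_rfl hra).ne'
    have ha : 0 < a := lt_of_lt_of_le hr hra
    have e1 : r₁ ^ (N - 1) * P' r₁ / P r₁ * (-τ * P r₁) ^ 2 =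
        r₁ ^ (N - 1) * (P' r₁ * P r₁) * τ ^ 2 := by
      field_simp
    have e2 : -τ * P r₁ / P r₁ = -τ := by field_simp
    rw [e1, e2]
    have e3 : 0 ≤ c ^ 2 / (N * k ^ 2) * (a ^ N)⁻¹ := by positivity
    have e4 : c ^ 2 / (N * k ^ 2) * (r₁ ^ N)⁻¹ = c * τ := by
      rw [hc]
      field_simp
    have e5 : c * τ = N * k ^ 2 * r₁ ^ N * τ ^ 2 := by rw [hc]; ring
    have e6 : a ^ (N - 1) * P' a / P a * (0 : ℝ) ^ 2 + 2 * c * (0 / P a) = 0 := by ring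
    rw [e6]
    nlinarith
  · apply ContinuousOn.integrableOn_Icc
    have hne : ∀ r ∈ Icc r₁ a, r ^ 2 ≠ 0 := fun r h =>
      pow_ne_zero 2 (ne_of_gt (lt_of_lt_of_le hr h.1))
    refine ContinuousOn.mul (continuousOn_id.pow _) (ContinuousOn.add (hw.2.continuousOn.pow 2) ?_)
    refine ContinuousOn.mul (ContinuousOn.sub ?_ continuousOn_const) (hwc.continuousOn.pow 2)
    exact ContinuousOn.div continuousOn_const (continuousOn_id.pow 2) hne
  · intro r h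
    have hr0 : 0 < r := lt_trans hr h.1
    have hp1 := hp r h.1.le h.2.le
    have hp0 := hPpos r h.1.le h.2.le
    obtain ⟨y, hy⟩ : ∃ y, y = (w' r * P r - w r * P' r) / P r ^ 2 := ⟨_, rfl⟩
    rw [← hy]
    have e1 : c ^ 2 / (N * k ^ 2) * (N * r ^ (N - 1) / (r ^ N) ^ 2) =
        c ^ 2 / (k ^ 2 * (r ^ (N - 1) * r ^ 2)) := by
      have : r ^ N = r ^ (N - 1) * r := by
        rw [← pow_succ]; congr 1; omega
      rw [this]
      field_simp
    rw [e1]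
    have hX : 0 < k ^ 2 * (r ^ (N - 1) * r ^ 2) := by positivity
    have hX2 : k ^ 2 * (r ^ (N - 1) * r ^ 2) ≤ r ^ (N - 1) * P r ^ 2 := by
      have h1 : (k * r) ^ 2 ≤ P r ^ 2 := pow_le_pow_left₀ (by positivity) hp1 2
      have h2 : 0 ≤ r ^ (N - 1) := by positivity
      nlinarith [mul_le_mul_of_nonneg_left h1 h2]
    generalize k ^ 2 * (r ^ (N - 1) * r ^ 2) = X at hX hX2
    have h3 : X * y ^ 2 - 2 * c * y + c ^ 2 / X = (X * y - c) ^ 2 / X := by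
      field_simp
      ring
    have h4 : 0 ≤ (X * y - c) ^ 2 / X := by positivity
    have h5 : X * y ^ 2 ≤ r ^ (N - 1) * P r ^ 2 * y ^ 2 :=
      mul_le_mul_of_nonneg_right hX2 (sq_nonneg y)
    linarith

theorem pf_IN (_hJS : T_JS) (_hJC : T_JC) (hM1 : T_M1) (hPH : T_PH) (hPV : T_PV) (hSI : T_SI)
    (hHY : T_HY) (hHA : T_HA) : T_IN := by
  intro K₁ hK₁
  obtain ⟨N₁, hN₁, hHA1⟩ := hHA K₁ hK₁
  refine ⟨max N₁ (⌈3 * K₁⌉₊), le_trans hN₁ (le_max_left _ _), ?_⟩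
  intro N L τ r₁ f f' hNN hFz hRF hfa hr0 hra hfr
  have hN1 : N₁ ≤ N := le_trans (le_max_left _ _) hNN
  have hN3K : 3 * K₁ ≤ N := by
    have h1 : (⌈3 * K₁⌉₊ : ℝ) ≤ N := by exact_mod_cast le_trans (le_max_right _ _) hNN
    exact le_trans (Nat.le_ceil _) h1
  have hN3 : 3 ≤ N := le_trans hN₁ hN1
  have hNR : (0 : ℝ) < N := by exact_mod_cast (by omega : 0 < N)
  obtain ⟨a, ha⟩ : ∃ a, a = aa N K₁ := ⟨_, rfl⟩
  rw [← ha] at hfa hra ⊢
  have ha0 : 0 < a := by rw [ha]; exact Real.exp_pos _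
  have ha1 : a < 1 := by
    rw [ha]
    unfold aa
    rw [Real.exp_lt_one_iff]
    have : 0 < K₁ / N := by positivity
    have h2 : -K₁ / N = -(K₁ / N) := by ring
    rw [h2]
    linarith
  have ha2 : a ^ 2 = Real.exp (-(2 * (K₁ / N))) := by
    rw [ha]
    unfold aa
    rw [← Real.exp_nat_mul]
    congr 1
    push_cast
    ring
  obtain ⟨hP1, hP2, hP3⟩ := hPH N L (by omega)
  obtain ⟨hV1, -, hV3, -⟩ := hPV N L (by omega) hFz
  obtain ⟨P, hP⟩ : ∃ P, P = ph N L 1 := ⟨_, rfl⟩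
  obtain ⟨P', hP'⟩ : ∃ P', P' = dph N L 1 := ⟨_, rfl⟩
  have hPC : C1 P P' := by
    rw [hP, hP']
    exact ⟨fun x => hP1 1 x, (hP2 1).2.continuous⟩
  have hPcont : Continuous P := continuous_iff_continuousAt.2 fun r => (hPC.1 r).continuousAt
  have hP0 : P 0 = 0 := by
    rw [hP, ph]
    simp
  have hPd : ∀ r : ℝ, 0 < r → HasDerivAt (fun r => r ^ (N - 1) * P' r)
      (r ^ (N - 1) * ((((N : ℝ) - 1) / r ^ 2 - L) * P r)) r := by
    intro r hr
    have h1 := hP3 1 r hr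
    rw [hP, hP']
    have h2 : ((1 : ℕ) : ℝ) * (((1 : ℕ) : ℝ) + N - 2) = (N : ℝ) - 1 := by
      push_cast
      ring
    rw [h2] at h1
    exact h1
  have hf := hRF.c1
  have h0 : f 0 = 0 := by
    obtain ⟨δ, hδ, h⟩ := hRF.near
    exact h 0 (by simpa using hδ.le)
  obtain ⟨w, hw⟩ : ∃ w : ℝ → ℝ, w = fun r => f r - τ * P r := ⟨_, rfl⟩
  obtain ⟨w', hw'⟩ : ∃ w' : ℝ → ℝ, w' = fun r => f' r - τ * P' r := ⟨_, rfl⟩
  have hwC : C1 w w' := by
    rw [hw, hw']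
    refine ⟨fun x => (hf.1 x).sub ((hPC.1 x).const_mul τ), ?_⟩
    have h1 := hf.2
    have h2 := hPC.2
    fun_prop
  have hw0 : w 0 = 0 := by
    rw [hw]
    simp only
    rw [h0, hP0]
    ring
  rw [← hP] at hfa
  have hwa : w a = 0 := by
    rw [hw]
    simp only
    rw [hfa]
    ring
  have hfc : Continuous f := continuous_iff_continuousAt.2 fun r => (hf.1 r).continuousAt
  have hwc : Continuous w := continuous_iff_continuousAt.2 fun r => (hwC.1 r).continuousAt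
  have hf'c := hf.2
  have hw'c := hwC.2
  have hP'c := hPC.2
  obtain ⟨qf, hqf, hfq⟩ := Pool.Agent.H33.LQ.m1_q hf h0
  obtain ⟨qw, hqw, hwq⟩ := Pool.Agent.H33.LQ.m1_q hwC hw0
  obtain ⟨G, hG⟩ : ∃ G : ℝ → ℝ, G = fun r => r ^ (N - 1) * (f' r ^ 2 +
    ((N : ℝ) - 1) * qf r ^ 2 - L * f r ^ 2) := ⟨_, rfl⟩
  obtain ⟨K, hK⟩ : ∃ K : ℝ → ℝ, K = fun r => r ^ (N - 1) * (w' r ^ 2 +
    ((N : ℝ) - 1) * qw r ^ 2 - L * w r ^ 2) := ⟨_, rfl⟩
  obtain ⟨M, hM⟩ : ∃ M : ℝ → ℝ, M = fun r => r ^ (N - 1) * (w' r ^ 2 +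
    ((N : ℝ) - 1) * qw r ^ 2) := ⟨_, rfl⟩
  have hGc : Continuous G := by
    rw [hG]
    fun_prop
  have hKc : Continuous K := by
    rw [hK]
    fun_prop
  have hMc : Continuous M := by
    rw [hM]
    fun_prop
  have hwwc : Continuous fun r : ℝ => r ^ (N - 1) * w r ^ 2 := by fun_prop
  have hGeq : ∀ r : ℝ, 0 < r → r ^ (N - 1) *
      (f' r ^ 2 + (((N : ℝ) - 1) / r ^ 2 - L) * f r ^ 2) = G r := by
    intro r hr
    have hr0 : r ≠ 0 := hr.ne'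
    simp only [hG]
    rw [hfq r]
    field_simp
    ring
  have hKeq : ∀ r : ℝ, 0 < r → r ^ (N - 1) *
      (w' r ^ 2 + (((N : ℝ) - 1) / r ^ 2 - L) * w r ^ 2) = K r := by
    intro r hr
    have hr0 : r ≠ 0 := hr.ne'
    simp only [hK]
    rw [hwq r]
    field_simp
    ring
  have hMeq : ∀ r : ℝ, 0 < r → r ^ (N - 1) *
      (w' r ^ 2 + ((N : ℝ) - 1) / r ^ 2 * w r ^ 2) = M r := by
    intro r hr
    have hr0 : r ≠ 0 := hr.ne'
    simp only [hM]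
    rw [hwq r]
    field_simp
  have hint : ∀ (b : ℝ) (A B : ℝ → ℝ), 0 ≤ b → (∀ r, 0 < r → A r = B r) →
      (∫ r in (0 : ℝ)..b, A r) = ∫ r in (0 : ℝ)..b, B r := by
    intro b A B hb hAB
    rw [intervalIntegral.integral_of_le hb, intervalIntegral.integral_of_le hb]
    exact setIntegral_congr_fun measurableSet_Ioc fun r hr => hAB r hr.1
  rw [hint a _ G ha0.le hGeq, ← hP, ← hP']
  -- the boundary terms
  have hbd : (∫ r in (0 : ℝ)..a, (G r - K r)) = a ^ (N - 1) * (P' a * P a) * τ ^ 2 := by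
    have h1 := intervalIntegral.integral_eq_sub_of_hasDeriv_right_of_le
      (f := fun r => r ^ (N - 1) * P' r * (τ ^ 2 * P r + 2 * τ * w r)) (f' := fun r => G r - K r)
      (a := 0) (b := a) ha0.le (by fun_prop) ?_ ((hGc.sub hKc).intervalIntegrable _ _)
    · rw [h1, hwa, zero_pow (show N - 1 ≠ 0 by omega)]
      ring
    · intro r hr
      have h2 := (hPd r hr.1).mul (((hPC.1 r).const_mul (τ ^ 2)).add ((hwC.1 r).const_mul (2 * τ)))
      have h3 : r ^ (N - 1) * ((((N : ℝ) - 1) / r ^ 2 - L) * P r) *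
          (τ ^ 2 * P r + 2 * τ * w r) + r ^ (N - 1) * P' r * (τ ^ 2 * P' r + 2 * τ * w' r) =
          G r - K r := by
        rw [← hGeq r hr.1, ← hKeq r hr.1, hw, hw']
        ring
      rw [← h3]
      exact h2.hasDerivWithinAt
  rw [intervalIntegral.integral_sub (hGc.intervalIntegrable _ _) (hKc.intervalIntegrable _ _)]
    at hbd
  -- the first lower bound
  have hsi := hSI N L a w w' hN3 hFz ha0 hwC hw0 hwa
  have hhy := hHY N a w w' hN3 ha0 hwC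
  rw [hint a _ M ha0.le hMeq] at hsi hhy
  rw [hwa] at hhy
  have hKM : (∫ r in (0 : ℝ)..a, K r) =
      (∫ r in (0 : ℝ)..a, M r) - L * ∫ r in (0 : ℝ)..a, r ^ (N - 1) * w r ^ 2 := by
    rw [← intervalIntegral.integral_const_mul, ← intervalIntegral.integral_sub
      (hMc.intervalIntegrable _ _) ((hwwc.const_mul _).intervalIntegrable _ _)]
    congr 1
    funext r
    rw [hK, hM]
    ring
  obtain ⟨W, hW⟩ : ∃ W, W = ∫ r in (0 : ℝ)..a, r ^ (N - 3) * w r ^ 2 := ⟨_, rfl⟩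
  have hW0 : 0 ≤ W := by
    rw [hW]
    refine intervalIntegral.integral_nonneg ha0.le fun r hr => ?_
    have := hr.1
    positivity
  have hWeq : (∫ r in (0 : ℝ)..a, r ^ (N - 3) * (f r - τ * P r) ^ 2) = W := by
    rw [hW, hw]
  rw [← hW] at hhy
  have hlow : K₁ * N / 3 * W ≤ ∫ r in (0 : ℝ)..a, K r := by
    rw [hKM]
    generalize (∫ r in (0 : ℝ)..a, M r) = EM at hsi hhy
    generalize (∫ r in (0 : ℝ)..a, r ^ (N - 1) * w r ^ 2) = EW at hsi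
    have h1 : L * EW ≤ a ^ 2 * EM := by
      have h2 : L * EW = a ^ 2 * (L / a ^ 2 * EW) := by
        field_simp
      rw [h2]
      exact mul_le_mul_of_nonneg_left hsi (by positivity)
    have h3 : (N : ℝ) ^ 2 / 4 * W ≤ EM := by
      have : ((N : ℝ) / 2 - 1) * (a ^ (N - 2) * (0 : ℝ) ^ 2) = 0 := by ring
      linarith
    have h4 : 4 * K₁ / (3 * N) ≤ 1 - a ^ 2 := by
      rw [ha2]
      have h5 := one_sub_exp_neg (x := 2 * (K₁ / N)) (by positivity)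
      refine le_trans ?_ h5
      have h6 : K₁ / N ≤ 1 / 3 := by
        rw [div_le_iff₀ hNR]
        linarith
      have h7 : 0 ≤ K₁ / N := by positivity
      have h8 : 4 * K₁ / (3 * N) = 4 / 3 * (K₁ / N) := by field_simp
      rw [h8]
      nlinarith
    have h9 : 0 ≤ EM := le_trans (by positivity) h3
    have h10 : (4 * K₁ / (3 * N)) * ((N : ℝ) ^ 2 / 4 * W) ≤ (1 - a ^ 2) * EM := by
      have h11 : 0 ≤ 4 * K₁ / (3 * N) := by positivity
      calc (4 * K₁ / (3 * N)) * ((N : ℝ) ^ 2 / 4 * W) ≤ (4 * K₁ / (3 * N)) * EM :=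
            mul_le_mul_of_nonneg_left h3 h11
        _ ≤ (1 - a ^ 2) * EM := mul_le_mul_of_nonneg_right h4 h9
    have h12 : (4 * K₁ / (3 * N)) * ((N : ℝ) ^ 2 / 4 * W) = K₁ * N / 3 * W := by
      field_simp
    linarith
  refine ⟨∫ r in (0 : ℝ)..a, K r, le_trans (by positivity) hlow, by linarith, ?_, ?_⟩
  · rw [hWeq]
    exact hlow
  -- the second lower bound
  have hFnn : 0 ≤ ∫ r in (0 : ℝ)..a, K r := le_trans (by positivity) hlow
  rcases hr0.eq_or_lt with h | hrpos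
  · rw [← h, zero_pow (by omega)]
    have : K₁ ^ 2 * Real.exp K₁ / 8 * (P' 1 ^ 2 / N) * 0 * τ ^ 2 = 0 := by ring
    rw [this]
    exact hFnn
  have hq : 0 < |dph N L 1 1| := abs_pos.2 hV3.ne
  obtain ⟨k, hk⟩ : ∃ k, k = |dph N L 1 1| / N * (K₁ / 2 * Real.exp (K₁ / 2)) := ⟨_, rfl⟩
  have hkpos : 0 < k := by rw [hk]; positivity
  have hw1 : w r₁ = -τ * ph N L 1 r₁ := by
    rw [hw, ← hP]
    simp only
    rw [hfr]
    ring
  have h1 := outer (L := L) hN3 hPH hwC (k := k) (τ := τ) hrpos hra hkpos (fun r h1 h2 => by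
    rw [hk]
    exact hHA1 N L r hN1 hFz (lt_of_lt_of_le hrpos h1) (by rw [← ha]; exact h2)) hwa hw1
  have h2 := hM1 N 1 L 1 r₁ w w' (by omega) le_rfl one_pos hrpos
    (fun r hr hr' => hV1 r hr (by rw [one_mul] at hr'; linarith)) hwC hw0
  have h3 : (∫ r in (0 : ℝ)..r₁, r ^ (N - 1) *
      (w' r ^ 2 + (((1 : ℕ) : ℝ) * (((1 : ℕ) : ℝ) + N - 2) / r ^ 2 - (1 : ℝ) ^ 2 * L) * w r ^ 2)) =
      ∫ r in (0 : ℝ)..r₁, K r := by
    refine hint r₁ _ _ hrpos.le fun r hr => ?_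
    rw [← hKeq r hr]
    push_cast
    ring
  rw [h3] at h2
  have h4 : (∫ r in r₁..a, r ^ (N - 1) *
      (w' r ^ 2 + (((N : ℝ) - 1) / r ^ 2 - L) * w r ^ 2)) = ∫ r in r₁..a, K r := by
    rw [intervalIntegral.integral_of_le hra, intervalIntegral.integral_of_le hra]
    exact setIntegral_congr_fun measurableSet_Ioc fun r hr => hKeq r (lt_trans hrpos hr.1)
  rw [h4] at h1
  have h5 : dd N L 1 1 r₁ * w r₁ ^ 2 = r₁ ^ (N - 1) * (P' r₁ * P r₁) * τ ^ 2 := by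
    have hne : ph N L 1 r₁ ≠ 0 := (hV1 r₁ hrpos (by linarith)).ne'
    rw [hw1, hP, hP']
    unfold dd
    rw [one_mul, one_mul]
    field_simp
  rw [h5] at h2
  rw [← hP, ← hP'] at h1
  have h6 : (∫ r in (0 : ℝ)..a, K r) = (∫ r in (0 : ℝ)..r₁, K r) + ∫ r in r₁..a, K r :=
    (intervalIntegral.integral_add_adjacent_intervals (hKc.intervalIntegrable _ _)
      (hKc.intervalIntegrable _ _)).symm
  have h7 : (N : ℝ) * k ^ 2 = 2 * (K₁ ^ 2 * Real.exp K₁ / 8 * (P' 1 ^ 2 / N)) := by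
    rw [hk, hP']
    have e1 : Real.exp K₁ = Real.exp (K₁ / 2) ^ 2 := by
      rw [← Real.exp_nat_mul]
      congr 1
      push_cast
      ring
    rw [e1]
    have e2 : (|dph N L 1 1| / N * (K₁ / 2 * Real.exp (K₁ / 2))) ^ 2 =
        |dph N L 1 1| ^ 2 / N ^ 2 * (K₁ / 2 * Real.exp (K₁ / 2)) ^ 2 := by ring
    rw [e2, sq_abs]
    field_simp
    ring
  have h8 : 0 ≤ K₁ ^ 2 * Real.exp K₁ / 8 * (P' 1 ^ 2 / N) * r₁ ^ N * τ ^ 2 := by positivity
  have h9 : N * k ^ 2 * r₁ ^ N * τ ^ 2 =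
      2 * (K₁ ^ 2 * Real.exp K₁ / 8 * (P' 1 ^ 2 / N) * r₁ ^ N * τ ^ 2) := by
    rw [h7]
    ring
  linarith

end Pool.Agent.H14.LNN
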