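import Pool.Agent.H69.LQ.Lib
import Pool.Agent.H69.LNN.Targets

set_option autoImplicit false

open MeasureTheory Metric Set
open scoped ENNReal

namespace Pool.Agent.H14.LNN

open Pool.Agent.H85.LK (E adm lam Ann)
open Pool.Agent.H69.LQ Pool.Agent.H69.LNN

variable {N : ℕ}

/-- the part of degree `1` -/
noncomputable def f1 (φ : Sp N → ℝ) (θ : Sp N) : ℝ := ∑ j, c1 φ j * (θ : E N) j

theorem BM_f1 (φ : Sp N → ℝ) : BM (f1 φ) :=
  BM.sum _ fun j _ => (BM_coord j).const_mul _

/-- mean of `f1` times a bounded function -/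
theorem av_f1_mul (φ g : Sp N → ℝ) (hg : BM g) :
    av (fun θ => f1 φ θ * g θ) = ∑ j, c1 φ j * av (fun θ => g θ * (θ : E N) j) := by
  have h1 : (fun θ => f1 φ θ * g θ) = fun θ : Sp N => ∑ j, c1 φ j * (g θ * (θ : E N) j) := by
    funext θ
    unfold f1
    rw [Finset.sum_mul]
    exact Finset.sum_congr rfl fun j _ => by ring
  rw [h1, av_sum _ fun j _ => (hg.mul (BM_coord j)).const_mul _]
  exact Finset.sum_congr rfl fun j _ => av_const_mul _ _

theorem pf_N2 (hMP : T_MP) (hMO : T_MO) (hPY : T_PY) (hQU : T_QU) (hH2 : T_H2) : T_N2 := by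
  intro N φ t hN hφ ht
  have := (hMP N hN).1
  obtain ⟨m0, m1, m2, m3, -⟩ := hMO N hN
  have hNR : (0 : ℝ) < N := by exact_mod_cast (by omega : 0 < N)
  have hf1 : BM (f1 φ) := BM_f1 φ
  -- the rest
  set α : Sp N → ℝ := fun θ => φ θ - (av φ + f1 φ θ) with hα
  have hF0 : BM (fun θ => av φ + f1 φ θ) := (BM_const _).add hf1
  have hαB : BM α := hφ.sub hF0
  -- moments of `φ`
  have hc : ∀ j, av (fun θ : Sp N => φ θ * (θ : E N) j) = c1 φ j / N := by
    intro j
    unfold c1
    field_simp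
  -- mean of `f1`
  have hf1a : av (f1 φ) = 0 := by
    have h := av_f1_mul φ (fun _ => 1) (BM_const 1)
    simp only [mul_one, one_mul] at h
    have h' : av (f1 φ) = ∑ j, c1 φ j * av (fun θ : Sp N => (θ : E N) j) := h
    rw [h']
    simp [m1]
  have hf1c : ∀ j, av (fun θ : Sp N => f1 φ θ * (θ : E N) j) = c1 φ j / N := by
    intro j
    rw [av_f1_mul φ _ (BM_coord j)]
    simp only [m2]
    simp [div_eq_mul_inv]
  have hconst : ∀ c : ℝ, av (fun _ : Sp N => c) = c := by
    intro c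
    have h := av_const_mul c (fun _ : Sp N => (1 : ℝ))
    simp only [mul_one] at h
    rw [h, m0, mul_one]
  have hF0a : av (fun θ => av φ + f1 φ θ) = av φ := by
    rw [av_add (BM_const _) hf1, hconst]
    have : av (fun θ => f1 φ θ) = 0 := hf1a
    rw [this, add_zero]
  have hα0 : av α = 0 := by
    have : av α = av (fun θ => φ θ) - av (fun θ => av φ + f1 φ θ) := av_sub hφ hF0
    rw [this, hF0a]
    simp
  have hF0c : ∀ j, av (fun θ : Sp N => (av φ + f1 φ θ) * (θ : E N) j) = c1 φ j / N := by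
    intro j
    have h1 : (fun θ : Sp N => (av φ + f1 φ θ) * (θ : E N) j) =
        fun θ : Sp N => av φ * (θ : E N) j + f1 φ θ * (θ : E N) j := by
      funext θ; ring
    rw [h1, av_add ((BM_coord j).const_mul _) (hf1.mul (BM_coord j)), av_const_mul, m1,
      hf1c, mul_zero, zero_add]
  have hα1 : ∀ j, av (fun θ : Sp N => α θ * (θ : E N) j) = 0 := by
    intro j
    have h1 : (fun θ : Sp N => α θ * (θ : E N) j) =
        fun θ : Sp N => φ θ * (θ : E N) j - (av φ + f1 φ θ) * (θ : E N) j := by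
      funext θ; simp only [hα]; ring
    rw [h1, av_sub (hφ.mul (BM_coord j)) (hF0.mul (BM_coord j)), hc, hF0c, sub_self]
  -- `f1` is orthogonal to `α`
  have hα2 : av (fun θ => f1 φ θ * α θ) = 0 := by
    rw [av_f1_mul φ _ hαB]
    simp [hα1]
  have hα3 : av (fun θ => α θ ^ 2) ≤ av (fun θ => φ θ ^ 2) := by
    have h1 : (fun θ => φ θ ^ 2) = fun θ => α θ ^ 2 +
        ((2 * av φ) * α θ + (2 * (f1 φ θ * α θ) + (av φ + f1 φ θ) ^ 2)) := by
      funext θ; simp only [hα]; ring
    have b1 : BM (fun θ => f1 φ θ * α θ) := hf1.mul hαB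
    have b2 : BM (fun θ => (av φ + f1 φ θ) ^ 2) := hF0.pow 2
    rw [h1, av_add (hαB.pow 2) ((hαB.const_mul _).add ((b1.const_mul _).add b2)),
      av_add (hαB.const_mul _) ((b1.const_mul _).add b2), av_add (b1.const_mul _) b2,
      av_const_mul, av_const_mul, hα2]
    have h2 : av (fun θ => α θ) = 0 := hα0
    rw [h2]
    have h3 := av_sq_nonneg (fun θ : Sp N => av φ + f1 φ θ)
    linarith
  -- the norm of `f1`
  have hn1 : av (fun θ => f1 φ θ ^ 2) = n1 φ := by
    have h1 : (fun θ => f1 φ θ ^ 2) = fun θ => f1 φ θ * f1 φ θ := by funext θ; ring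
    rw [h1, av_f1_mul φ _ hf1]
    simp only [hf1c]
    unfold n1
    rw [Finset.sum_div]
    exact Finset.sum_congr rfl fun j _ => by ring
  -- the parts
  have hpart : ∀ i : Fin N, n2 (fun θ : Sp N => φ θ * (θ : E N) i) ≤
      (1 + t) * av (fun θ : Sp N => f1 φ θ ^ 2 * (θ : E N) i ^ 2) +
        (1 + 1 / t) * n2 (fun θ : Sp N => α θ * (θ : E N) i) := by
    intro i
    have bF : BM (fun θ : Sp N => (av φ + f1 φ θ) * (θ : E N) i) := hF0.mul (BM_coord i)
    have bG : BM (fun θ : Sp N => α θ * (θ : E N) i) := hαB.mul (BM_coord i)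
    have bF1 : BM (fun θ : Sp N => f1 φ θ * (θ : E N) i) := hf1.mul (BM_coord i)
    have q := (hQU N _ _ t hN bF bG ht).2.2.1
    have e1 : (fun θ : Sp N => (av φ + f1 φ θ) * (θ : E N) i + α θ * (θ : E N) i) =
        fun θ : Sp N => φ θ * (θ : E N) i := by
      funext θ; simp only [hα]; ring
    rw [e1] at q
    have q' := (abs_le.1 q).2
    -- `c2` of the constant part vanishes
    have e2 : n2 (fun θ : Sp N => (av φ + f1 φ θ) * (θ : E N) i) =
        n2 (fun θ : Sp N => f1 φ θ * (θ : E N) i) := by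
      unfold n2
      congr 1
      refine Finset.sum_congr rfl fun j _ => Finset.sum_congr rfl fun k _ => ?_
      congr 1
      unfold c2
      have h1 : (fun θ : Sp N => (av φ + f1 φ θ) * (θ : E N) i * ((θ : E N) j * (θ : E N) k)) =
          fun θ : Sp N => av φ * ((θ : E N) i * (θ : E N) j * (θ : E N) k) +
            f1 φ θ * (θ : E N) i * ((θ : E N) j * (θ : E N) k) := by
        funext θ; ring
      have h2 : (fun θ : Sp N => (av φ + f1 φ θ) * (θ : E N) i) =
          fun θ : Sp N => av φ * (θ : E N) i + f1 φ θ * (θ : E N) i := by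
        funext θ; ring
      have b3 : BM (fun θ : Sp N => (θ : E N) i * (θ : E N) j * (θ : E N) k) :=
        ((BM_coord i).mul (BM_coord j)).mul (BM_coord k)
      rw [h1, h2, av_add (b3.const_mul _) (bF1.mul ((BM_coord j).mul (BM_coord k))),
        av_add ((BM_coord i).const_mul _) bF1, av_const_mul, av_const_mul, m3, m1]
      simp
    -- Pythagoras
    have e3 : n2 (fun θ : Sp N => f1 φ θ * (θ : E N) i) ≤
        av (fun θ : Sp N => f1 φ θ ^ 2 * (θ : E N) i ^ 2) := by
      have p := (hPY N _ hN bF1).1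
      have h1 : (fun θ : Sp N => (f1 φ θ * (θ : E N) i) ^ 2) =
          fun θ : Sp N => f1 φ θ ^ 2 * (θ : E N) i ^ 2 := by
        funext θ; ring
      rw [h1] at p
      rw [p]
      have a0 : 0 ≤ n0 (fun θ : Sp N => f1 φ θ * (θ : E N) i) := sq_nonneg _
      have a1 : 0 ≤ n1 (fun θ : Sp N => f1 φ θ * (θ : E N) i) := by
        unfold n1
        exact div_nonneg (Finset.sum_nonneg fun _ _ => sq_nonneg _) hNR.le
      have a3 : 0 ≤ n3 (fun θ : Sp N => f1 φ θ * (θ : E N) i) := av_sq_nonneg _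
      linarith
    rw [e2] at q'
    have ht' : (0 : ℝ) ≤ 1 + t := by linarith
    have := mul_le_mul_of_nonneg_left e3 ht'
    linarith
  -- sum over `i`
  have hsum : ∑ i, av (fun θ : Sp N => f1 φ θ ^ 2 * (θ : E N) i ^ 2) = n1 φ := by
    rw [← av_sum _ fun i _ => (hf1.pow 2).mul ((BM_coord i).pow 2), ← hn1]
    congr 1
    funext θ
    rw [← Finset.mul_sum, sum_sq_sp, mul_one]
  have hH := hH2 N α hN hαB hα0 hα1
  have ht2 : (0 : ℝ) ≤ 1 + 1 / t := by positivity
  have hN4 : (0 : ℝ) ≤ 3 / ((N : ℝ) + 4) := by positivity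
  calc ∑ i, n2 (fun θ : Sp N => φ θ * (θ : E N) i)
      ≤ ∑ i, ((1 + t) * av (fun θ : Sp N => f1 φ θ ^ 2 * (θ : E N) i ^ 2) +
        (1 + 1 / t) * n2 (fun θ : Sp N => α θ * (θ : E N) i)) :=
        Finset.sum_le_sum fun i _ => hpart i
    _ = (1 + t) * n1 φ + (1 + 1 / t) * ∑ i, n2 (fun θ : Sp N => α θ * (θ : E N) i) := by
        rw [Finset.sum_add_distrib, ← Finset.mul_sum, ← Finset.mul_sum, hsum]
    _ ≤ (1 + t) * n1 φ + (1 + 1 / t) * (3 / ((N : ℝ) + 4) * av (fun θ => φ θ ^ 2)) := by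
        have h1 := hH.trans (mul_le_mul_of_nonneg_left hα3 hN4)
        have := mul_le_mul_of_nonneg_left h1 ht2
        linarith
    _ = _ := by ring

end Pool.Agent.H14.LNN
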